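import Pool.Agent.W46.HM.Stm2

/-!
# Project HM (helper46), part WEAK: weak type estimate for the Kakeya maximal function
-/

set_option autoImplicit false

open Finset MeasureTheory
open scoped Classical ENNReal NNReal

namespace Pool.Agent.W101.HM
open Pool.Agent.W46.KK Pool.Agent.W46.HM

lemma exists_net {X : Type*} [MetricSpace X] [CompactSpace X] (A : Set X) {δ : ℝ} (hδ : 0 < δ) :
    ∃ I : Finset X, (∀ x ∈ I, x ∈ A) ∧ (∀ x ∈ I, ∀ y ∈ I, x ≠ y → δ ≤ dist x y) ∧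
      A ⊆ ⋃ x ∈ I, Metric.closedBall x δ := by
  set ε : ℝ≥0 := ⟨δ, hδ.le⟩ with hε
  have hε0 : 0 < ε := by
    rw [← NNReal.coe_pos]
    exact hδ
  have hne : ε / 2 ≠ 0 := (half_pos hε0).ne'
  obtain ⟨N, _, hN, hcov⟩ := Metric.exists_finite_isCover_of_isCompact hne
    (isCompact_univ (X := X))
  have hfin : Metric.packingNumber ε A ≠ ⊤ := by
    have h2 : ε = 2 * (ε / 2) := by
      rw [mul_div_cancel₀]
      exact two_ne_zero
    have h3 := (Metric.packingNumber_two_mul_le_externalCoveringNumber (ε / 2) A).trans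
      ((hcov.anti (Set.subset_univ A)).externalCoveringNumber_le_encard)
    rw [← h2] at h3
    exact ne_top_of_le_ne_top hN.encard_lt_top.ne h3
  have hfinM : (Metric.maximalSeparatedSet ε A).Finite := by
    rw [← Set.encard_lt_top_iff, Metric.encard_maximalSeparatedSet hfin]
    exact lt_top_iff_ne_top.2 hfin
  refine ⟨hfinM.toFinset, ?_, ?_, ?_⟩
  · intro x hx
    exact Metric.maximalSeparatedSet_subset (hfinM.mem_toFinset.1 hx)
  · intro x hx y hy hxy
    have h1 := Metric.isSeparated_maximalSeparatedSet (hfinM.mem_toFinset.1 hx)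
      (hfinM.mem_toFinset.1 hy) hxy
    replace h1 : (ε : ℝ≥0∞) < edist x y := h1
    rw [edist_nndist, ENNReal.coe_lt_coe] at h1
    have h2 : (ε : ℝ) < (nndist x y : ℝ) := NNReal.coe_lt_coe.2 h1
    exact h2.le
  · have h1 := (Metric.isCover_maximalSeparatedSet hfin).subset_iUnion_closedBall
    intro x hx
    have h2 := h1 hx
    simp only [Set.mem_iUnion, hfinM.mem_toFinset] at h2 ⊢
    exact h2

lemma real_alg {d M : ℕ} (hd : 0 < d) (hM : 0 < M) {c C0 κ l δ a p q : ℝ} (hc : 0 < c)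
    (hC0 : 0 < C0) (hκ : 0 < κ) (hl : 0 < l) (hδ : 0 < δ) (ha : 0 ≤ a)
    (hp : p = 1 + d / c) (hq : q = 1 + c / d)
    (h : (M : ℝ) * (l * (κ * δ ^ d)) ≤
      a ^ (1 / p) * (C0 * δ ^ (d : ℝ) * (M : ℝ) ^ (q - 1 / (d : ℝ))) ^ (1 / q)) :
    (M : ℝ) ≤ C0 ^ (d : ℝ) * κ ^ (-((d : ℝ) + c)) * a ^ c * l ^ (-((d : ℝ) + c)) *
      δ ^ (-((d : ℝ) * c)) := by
  have hd' : (0 : ℝ) < d := by exact_mod_cast hd
  have hM' : (0 : ℝ) < M := by exact_mod_cast hM
  set s : ℝ := (d : ℝ) + c with hs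
  have hs0 : 0 < s := by positivity
  have hsp : 1 / p * s = c := by
    rw [hp, hs]
    field_simp
    try ring
  have hsq : 1 / q * s = d := by
    rw [hq, hs]
    field_simp
    try ring
  have h1 := Real.rpow_le_rpow (by positivity) h hs0.le
  have hB : 0 ≤ C0 * δ ^ (d : ℝ) * (M : ℝ) ^ (q - 1 / (d : ℝ)) := by positivity
  rw [Real.mul_rpow hM'.le (by positivity), Real.mul_rpow hl.le (by positivity),
    Real.mul_rpow hκ.le (by positivity), Real.mul_rpow (by positivity) (by positivity),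
    ← Real.rpow_mul ha, ← Real.rpow_mul hB, hsp, hsq, Real.mul_rpow (by positivity) (by positivity),
    Real.mul_rpow hC0.le (by positivity), ← Real.rpow_mul hδ.le, ← Real.rpow_mul hM'.le,
    ← Real.rpow_natCast δ d, ← Real.rpow_mul hδ.le] at h1
  have e1 : (q - 1 / (d : ℝ)) * d = s - 1 := by
    rw [hq, hs]
    field_simp
    try ring
  rw [e1] at h1
  have e2 : (M : ℝ) ^ s = M * (M : ℝ) ^ (s - 1) := by
    rw [Real.rpow_sub_one hM'.ne']
    field_simp
  rw [e2] at h1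
  have hMs : 0 < (M : ℝ) ^ (s - 1) := Real.rpow_pos_of_pos hM' _
  have h2 : (M : ℝ) * (l ^ s * (κ ^ s * δ ^ ((d : ℝ) * s))) ≤
      a ^ c * (C0 ^ (d : ℝ) * δ ^ ((d : ℝ) * d)) := by
    refine le_of_mul_le_mul_right ?_ hMs
    calc _ = (M : ℝ) * (M : ℝ) ^ (s - 1) * (l ^ s * (κ ^ s * δ ^ ((d : ℝ) * s))) := by ring
      _ ≤ _ := h1
      _ = _ := by ring
  have hls : 0 < l ^ s := Real.rpow_pos_of_pos hl _
  have hκs : 0 < κ ^ s := Real.rpow_pos_of_pos hκ _
  have hδs : 0 < δ ^ ((d : ℝ) * s) := Real.rpow_pos_of_pos hδ _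
  have h3 : (M : ℝ) ≤ a ^ c * (C0 ^ (d : ℝ) * δ ^ ((d : ℝ) * d)) /
      (l ^ s * (κ ^ s * δ ^ ((d : ℝ) * s))) := by
    rw [le_div_iff₀ (by positivity)]
    exact h2
  refine h3.trans_eq ?_
  have e3 : δ ^ (-((d : ℝ) * c)) = δ ^ ((d : ℝ) * d) / δ ^ ((d : ℝ) * s) := by
    rw [← Real.rpow_sub hδ]
    congr 1
    rw [hs]
    ring
  rw [e3, Real.rpow_neg hκ.le, Real.rpow_neg hl.le]
  field_simp

theorem weak (h : ∀ q, S_TUBEQ q) (hC : S_CAP) (hV : S_VOL) : S_WEAK := by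
  intro d hd
  set c : ℝ := 16752 / 10000 with hc
  have hc0 : 0 < c := by rw [hc]; norm_num
  have hd0 : 0 < d := by omega
  have hdR : (0 : ℝ) < d := by exact_mod_cast hd0
  set q : ℝ := 1 + c / d with hq
  set p : ℝ := 1 + d / c with hp
  have hp0 : 0 < p := by positivity
  have hq0 : 0 < q := by positivity
  have hpq : p.HolderConjugate q := by
    rw [Real.holderConjugate_iff]
    refine ⟨?_, ?_⟩
    · rw [hp]
      have : 0 < (d : ℝ) / c := by positivity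
      linarith
    · rw [hp, hq]
      field_simp
      ring
  obtain ⟨C0, hC0, hT⟩ := h q d hd le_rfl
  obtain ⟨C1, hC1, hcap⟩ := hC d
  obtain ⟨κ, hκ, hvol⟩ := hV d
  refine ⟨C1 * (C0 ^ (d : ℝ) * κ ^ (-((d : ℝ) + c))), by positivity,
    fun δ hδ hδ1 f hf l hl => ?_⟩
  set A : ℝ≥0∞ := ∫⁻ y, f y ^ p with hA
  set E : Set (Metric.sphere (0 : EuclideanSpace ℝ (Fin (d + 1))) 1) :=
    {e | ENNReal.ofReal l < kmax δ f (e : EuclideanSpace ℝ (Fin (d + 1)))} with hE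
  set D : ℝ := C1 * (C0 ^ (d : ℝ) * κ ^ (-((d : ℝ) + c))) * δ ^ (-((c - 1) * (d : ℝ))) *
    l ^ (-((d : ℝ) + c)) with hD
  have hD0 : 0 < D := by positivity
  by_cases hAtop : A = ⊤
  · rw [hAtop, ENNReal.top_rpow_of_pos hc0, ENNReal.mul_top (ENNReal.ofReal_pos.2 hD0).ne']
    exact le_top
  obtain ⟨I, hIE, hIsep, hIcov⟩ := exists_net E hδ
  have hmeas : (volume : Measure (EuclideanSpace ℝ (Fin (d + 1)))).toSphere E ≤
      ENNReal.ofReal ((I.card : ℝ) * (C1 * δ ^ d)) := by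
    refine (measure_mono hIcov).trans ((measure_biUnion_finset_le I _).trans ?_)
    refine (Finset.sum_le_sum fun e _ => hcap e δ hδ hδ1.le).trans ?_
    rw [Finset.sum_const, nsmul_eq_mul, ENNReal.ofReal_mul (Nat.cast_nonneg _),
      ENNReal.ofReal_natCast]
  refine hmeas.trans ?_
  rcases I.eq_empty_or_nonempty with hI | hI
  · rw [hI]
    simp
  have hM : 0 < I.card := hI.card_pos
  -- the tubes
  have hch : ∀ e : {x // x ∈ I}, ∃ a : EuclideanSpace ℝ (Fin (d + 1)),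
      ENNReal.ofReal (l * (κ * δ ^ d)) ≤
        ∫⁻ y in tube δ a ((e : Metric.sphere (0 : EuclideanSpace ℝ (Fin (d + 1))) 1) :
          EuclideanSpace ℝ (Fin (d + 1))), f y := by
    intro e
    have h1 : ENNReal.ofReal l < kmax δ f ((e : Metric.sphere
      (0 : EuclideanSpace ℝ (Fin (d + 1))) 1) : EuclideanSpace ℝ (Fin (d + 1))) := hIE e e.2
    rw [kmax, lt_iSup_iff] at h1
    obtain ⟨a, ha⟩ := h1
    refine ⟨a, ?_⟩
    have he : ‖((e : Metric.sphere (0 : EuclideanSpace ℝ (Fin (d + 1))) 1) :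
        EuclideanSpace ℝ (Fin (d + 1)))‖ = 1 := by
      simp
    obtain ⟨hv1, hv2⟩ := hvol a _ δ he hδ hδ1.le
    have hv0 : volume (tube δ a ((e : Metric.sphere (0 : EuclideanSpace ℝ (Fin (d + 1))) 1) :
        EuclideanSpace ℝ (Fin (d + 1)))) ≠ 0 := by
      have : 0 < ENNReal.ofReal (κ * δ ^ d) := ENNReal.ofReal_pos.2 (by positivity)
      exact (this.trans_le hv1).ne'
    rw [ENNReal.ofReal_mul hl.le]
    calc ENNReal.ofReal l * ENNReal.ofReal (κ * δ ^ d)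
        ≤ ENNReal.ofReal l * volume (tube δ a ((e : Metric.sphere
            (0 : EuclideanSpace ℝ (Fin (d + 1))) 1) : EuclideanSpace ℝ (Fin (d + 1)))) := by
          gcongr
      _ ≤ ((volume (tube δ a ((e : Metric.sphere
            (0 : EuclideanSpace ℝ (Fin (d + 1))) 1) : EuclideanSpace ℝ (Fin (d + 1)))))⁻¹ *
            ∫⁻ y in tube δ a ((e : Metric.sphere (0 : EuclideanSpace ℝ (Fin (d + 1))) 1) :
              EuclideanSpace ℝ (Fin (d + 1))), f y) * volume (tube δ a ((e : Metric.sphere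
            (0 : EuclideanSpace ℝ (Fin (d + 1))) 1) : EuclideanSpace ℝ (Fin (d + 1)))) := by
          gcongr
      _ = _ := by
          rw [mul_right_comm, ENNReal.inv_mul_cancel hv0 hv2, one_mul]
  choose a ha using hch
  set g : EuclideanSpace ℝ (Fin (d + 1)) → ℝ≥0∞ := fun x => ∑ i : {x // x ∈ I},
    (tube δ (a i) ((i : Metric.sphere (0 : EuclideanSpace ℝ (Fin (d + 1))) 1) :
      EuclideanSpace ℝ (Fin (d + 1)))).indicator (fun _ => (1 : ℝ≥0∞)) x with hg
  have hTm : ∀ i : {x // x ∈ I}, MeasurableSet (tube δ (a i) ((i : Metric.sphere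
      (0 : EuclideanSpace ℝ (Fin (d + 1))) 1) : EuclideanSpace ℝ (Fin (d + 1)))) :=
    fun i => (tube_isClosed _ _ _).measurableSet
  have hgm : Measurable g :=
    Finset.measurable_sum _ fun i _ => measurable_const.indicator (hTm i)
  have hT' := hT δ hδ hδ1.le {x // x ∈ I} a
    (fun i => ((i : Metric.sphere (0 : EuclideanSpace ℝ (Fin (d + 1))) 1) :
      EuclideanSpace ℝ (Fin (d + 1))))
    (fun i => by simp)
    (fun i j hij => by
      have h1 := hIsep i i.2 j j.2 (fun hh => hij (Subtype.ext hh))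
      rwa [Subtype.dist_eq, dist_eq_norm] at h1)
  rw [Fintype.card_coe] at hT'
  have hsum : ∑ i : {x // x ∈ I}, ∫⁻ y in tube δ (a i) ((i : Metric.sphere
      (0 : EuclideanSpace ℝ (Fin (d + 1))) 1) : EuclideanSpace ℝ (Fin (d + 1))), f y =
      ∫⁻ y, (f * g) y := by
    have e1 : ∀ y, (f * g) y = ∑ i : {x // x ∈ I}, (tube δ (a i) ((i : Metric.sphere
      (0 : EuclideanSpace ℝ (Fin (d + 1))) 1) : EuclideanSpace ℝ (Fin (d + 1)))).indicator f y := by
      intro y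
      rw [Pi.mul_apply, hg, Finset.mul_sum]
      refine Finset.sum_congr rfl fun i _ => ?_
      by_cases hy : y ∈ tube δ (a i) ((i : Metric.sphere
        (0 : EuclideanSpace ℝ (Fin (d + 1))) 1) : EuclideanSpace ℝ (Fin (d + 1)))
      · simp [hy]
      · simp [hy]
    simp_rw [e1]
    rw [lintegral_finsetSum' _ fun i _ => hf.indicator (hTm i)]
    exact Finset.sum_congr rfl fun i _ => (lintegral_indicator (hTm i) _).symm
  have hlow : ENNReal.ofReal ((I.card : ℝ) * (l * (κ * δ ^ d))) ≤ ∫⁻ y, (f * g) y := by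
    rw [← hsum, ENNReal.ofReal_mul (Nat.cast_nonneg _), ENNReal.ofReal_natCast]
    have : ∑ i : {x // x ∈ I}, ENNReal.ofReal (l * (κ * δ ^ d)) =
        (I.card : ℝ≥0∞) * ENNReal.ofReal (l * (κ * δ ^ d)) := by
      rw [Finset.sum_const, nsmul_eq_mul, Finset.card_univ, Fintype.card_coe]
    rw [← this]
    exact Finset.sum_le_sum fun i _ => ha i
  have hHol := ENNReal.lintegral_mul_le_Lp_mul_Lq volume hpq hf hgm.aemeasurable
  obtain ⟨a', ha'0, hAa⟩ : ∃ a' : ℝ, 0 ≤ a' ∧ A = ENNReal.ofReal a' :=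
    ⟨A.toReal, ENNReal.toReal_nonneg, (ENNReal.ofReal_toReal hAtop).symm⟩
  have hreal : (I.card : ℝ) * (l * (κ * δ ^ d)) ≤
      a' ^ (1 / p) * (C0 * δ ^ (d : ℝ) * (I.card : ℝ) ^ (q - 1 / (d : ℝ))) ^ (1 / q) := by
    have hB : 0 ≤ C0 * δ ^ (d : ℝ) * (I.card : ℝ) ^ (q - 1 / (d : ℝ)) := by positivity
    have h1 : ENNReal.ofReal ((I.card : ℝ) * (l * (κ * δ ^ d))) ≤
        ENNReal.ofReal (a' ^ (1 / p) *
          (C0 * δ ^ (d : ℝ) * (I.card : ℝ) ^ (q - 1 / (d : ℝ))) ^ (1 / q)) := by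
      rw [ENNReal.ofReal_mul (p := a' ^ (1 / p)) (by positivity),
        ← ENNReal.ofReal_rpow_of_nonneg ha'0 (by positivity),
        ← ENNReal.ofReal_rpow_of_nonneg hB (by positivity), ← hAa]
      refine (hlow.trans hHol).trans ?_
      gcongr
    exact (ENNReal.ofReal_le_ofReal_iff (by positivity)).1 h1
  have hfin := real_alg hd0 hM hc0 hC0 hκ hl hδ ha'0 hp hq hreal
  rw [hAa, ENNReal.ofReal_rpow_of_nonneg ha'0 hc0.le, ← ENNReal.ofReal_mul hD0.le]
  refine ENNReal.ofReal_le_ofReal ?_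
  have h5 : (I.card : ℝ) * (C1 * δ ^ d) ≤ (C0 ^ (d : ℝ) * κ ^ (-((d : ℝ) + c)) * a' ^ c *
      l ^ (-((d : ℝ) + c)) * δ ^ (-((d : ℝ) * c))) * (C1 * δ ^ d) := by
    gcongr
  refine h5.trans_eq ?_
  have e5 : δ ^ (-((c - 1) * (d : ℝ))) = δ ^ (-((d : ℝ) * c)) * δ ^ d := by
    rw [← Real.rpow_natCast δ d, ← Real.rpow_add hδ]
    congr 1
    ring
  rw [hD, e5]
  ring

end Pool.Agent.W101.HM
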